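import Pool.Agent.Lib.MP_ab8df0_nt.T.N15
import Pool.Agent.Lib.MP_ab8df0_nt.T.B60a.Core
import Pool.Agent.Lib.MP_ab8df0_nt.T.B60b.Core
import Pool.Agent.Lib.MP_ab8df0_nt.P.N0

/-! The trivial class contains only the solutions with `y = 0`. -/

namespace Pool.Agent.Lib.MP_ab8df0_nt.T.B60

open Pool.Agent.Lib.MP_ab8df0_nt.B Pool.Agent.Lib.MP_ab8df0_nt.C Pool.Agent.Lib.MP_ab8df0_nt.P

theorem bb0 {K : Type} [Field K] [NumberField K] {a : K} {pl : List (Place K)}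
    {ph : List (K →+* ℝ)}
    {w : List (IsDedekindDomain.HeightOneSpectrum (NumberField.RingOfIntegers K))}
    (hP : Pack K FDN0 a pl ph w) : BB60 := by
  intro x y z hz h hf
  by_contra hy
  obtain ⟨t, g, X, htz, h1, hg, hq, hG, hX⟩ := N15.lev1 (be := cval a B60b.vs 41) (B60b.relth hP)
    (by rw [show e3 (cval a B60b.vs 11) (1, 0, 0) = 1 by simp [e3]]
        linear_combination B60b.relbe hP) hz h hf
  refine B60a.core hP t g X hq hG hX (delta_even hg hX) (fun _ _ φ _ => delta_pos hg hX φ)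
    fun hs => ?_
  have hd : 1 * t - 0 ≠ 0 := by simpa using N15.ne_of htz 0 1 (by simpa using hy)
  obtain ⟨Y, hY⟩ := N15.on15 (dl := cval a B60b.vs 32) hg hX hs (B60b.relD hP) (B60b.rela hP)
    (B60b.relb hP) (B60b.relD5 hP)
  obtain ⟨dG, dX, du, dx, a1, a2, a3, a4, a5⟩ := N15.chain h1 hg hG hX rfl rfl (B60b.relG0 hP)
    (B60b.relX0 hP) (B60b.relu0 hP) (B60b.relx0 hP) hd
  exact B60b.core hP t g X _ _ Y dG dX du dx hq hG hX hs rfl rfl hY a1 a2 a3 a4 hd a5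

theorem bb : BB60 := by
  obtain ⟨pl, ph, w, hP⟩ := P.N0.pack
  exact bb0 hP

end Pool.Agent.Lib.MP_ab8df0_nt.T.B60
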